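import Pool.Agent.U923.PP.Wil

/-!
# Project EK (helper6): the number of Wilson primes of a random progression is asymptotically normal

Statements of the packages. `es`, `cnt`, `nev`, `WH`, `PW`, `gg` are the definitions of `Pool.Agent.U923.PP`.
-/

set_option autoImplicit false

namespace Pool.Agent.U6.EK

open Finset Filter Topology
open Pool.Agent.U923.PP (es cnt nev WH PW)
open Pool.Agent.Helper92K9.WI (gg)

/-- the normal distribution function -/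
noncomputable def Phi (z : ℝ) : ℝ := (ProbabilityTheory.gaussianReal 0 1 (Set.Iic z)).toReal

/-- EXP: binomial series with remainder, for `1 + t` in the unit disk (induction on `N`:
`R(N+1,K) = (1+t) R(N,K) + C(N,K-1) t^K`) -/
def T_EXP : Prop := ∀ (N K : ℕ) (t : ℂ), ‖1 + t‖ ≤ 1 →
  ‖(1 + t) ^ N - ∑ k ∈ range K, (N.choose k : ℂ) * t ^ k‖ ≤ (N.choose K : ℝ) * ‖t‖ ^ K

/-- ES: elementary symmetric sums are at most `(∑ q)^K / K!` (use `es_count`, `es_mono_erase`) -/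
def T_ES : Prop := ∀ (P : Finset ℕ) (q : ℕ → ℝ) (K : ℕ) (x : ℝ), (∀ p ∈ P, 0 ≤ q p) → 0 ≤ x →
  es P q K * x ^ K ≤ (1 / 2) ^ K * Real.exp (2 * x * ∑ p ∈ P, q p)

/-- GEN: the generating function of the elementary symmetric sums, truncated -/
def T_GEN : Prop := ∀ (P : Finset ℕ) (q : ℕ → ℝ) (t : ℂ) (K : ℕ), (∀ p ∈ P, 0 ≤ q p) →
  ‖∏ p ∈ P, (1 + t * (q p : ℂ)) - ∑ k ∈ range K, t ^ k * ((es P q k : ℝ) : ℂ)‖ ≤
    (1 / 2) ^ K * Real.exp (2 * ‖t‖ * ∑ p ∈ P, q p)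

/-- PROD: comparison of the product with the exponential (both products have factors in the unit disk) -/
def T_PROD : Prop := ∀ (P : Finset ℕ) (q : ℕ → ℝ) (t : ℂ), (∀ p ∈ P, 0 ≤ q p ∧ q p ≤ 1) → ‖1 + t‖ ≤ 1 → ‖t‖ ≤ 1 →
  ‖∏ p ∈ P, (1 + t * (q p : ℂ)) - Complex.exp (t * ((∑ p ∈ P, q p : ℝ) : ℂ))‖ ≤ ‖t‖ ^ 2 * ∑ p ∈ P, q p ^ 2

/-- LIM: the limit of the characteristic functions of Poisson laws -/
def T_LIM : Prop := ∀ μ : ℕ → ℝ, Tendsto μ atTop atTop → ∀ u : ℝ,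
  Tendsto (fun n => Complex.exp ((Complex.exp (Complex.I * ((u / Real.sqrt (μ n) : ℝ) : ℂ)) - 1) * ((μ n : ℝ) : ℂ)) *
    Complex.exp (-(Complex.I * ((u * Real.sqrt (μ n) : ℝ) : ℂ)))) atTop (𝓝 (Complex.exp (((-(u ^ 2) / 2 : ℝ) : ℂ))))

open Classical in
/-- LEVY: Levy's continuity theorem for uniform laws on finite sets (Mathlib: LevyConvergence, charFun_gaussianReal) -/
def T_LEVY : Prop := ∀ (Ω : ℕ → Finset ℕ) (Y : ℕ → ℕ → ℝ), (∀ n, (Ω n).Nonempty) →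
  (∀ u : ℝ, Tendsto (fun n => (∑ a ∈ Ω n, Complex.exp (Complex.I * ((u * Y n a : ℝ) : ℂ))) / ((Ω n).card : ℂ)) atTop
    (𝓝 (Complex.exp (((-(u ^ 2) / 2 : ℝ) : ℂ))))) →
  ∀ z : ℝ, Tendsto (fun n => (((Ω n).filter fun a => Y n a ≤ z).card : ℝ) / (Ω n).card) atTop (𝓝 (Phi z))

/-- MU: Mertens for the densities `gg p = (p-1)/p^2` of the odd primes `p ≤ w`, and for the primes of a window
(use `Pool.Agent.H305R2.mertens_inv_tendsto`, see `sum_gg` in U923/PP/Wil) -/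
def T_MU : Prop := ∃ C : ℝ, 0 < C ∧ (∀ w : ℝ, 3 ≤ w → |∑ p ∈ PW 2 w, gg p - Real.log (Real.log w)| ≤ C) ∧
  (∀ w y : ℝ, 3 ≤ w → w ≤ y → ∑ p ∈ PW w y, gg p ≤ Real.log (Real.log y / Real.log w) + C) ∧
  (∀ w : ℝ, ∑ p ∈ PW 2 w, gg p ^ 2 ≤ C)

/-- FM: the mean number of the Wilson primes in a window (use `WH_cnt` with `T = {p}`, `Z = p`) -/
def T_FM : Prop := ∃ C : ℝ, 0 < C ∧ ∀ (b H : ℤ) (X : ℕ) (w y : ℝ), 3 ≤ w → w ≤ y → y ^ 2 ≤ X →
  (∑ a ∈ Icc 1 X, (nev (PW w y) (WH b H) a : ℝ)) / X ≤ Real.log (Real.log y / Real.log w) + C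

open Classical in
/-- HEAD: conclusion for the primes up to `w` (assembled) -/
def T_HEAD : Prop := ∀ (b H : ℕ → ℤ) (X : ℕ → ℕ) (w : ℕ → ℝ), Tendsto w atTop atTop → (∀ n, 3 ≤ w n) →
  (∀ n, w n ^ (3 * Real.log (Real.log (w n))) ≤ X n) → ∀ z : ℝ,
  Tendsto (fun n => (((Icc 1 (X n)).filter fun a => (nev (PW 2 (w n)) (WH (b n) (H n)) a : ℝ) ≤
    (∑ p ∈ PW 2 (w n), gg p) + z * Real.sqrt (∑ p ∈ PW 2 (w n), gg p)).card : ℝ) / X n) atTop (𝓝 (Phi z))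

open Classical in
/-- SAND: passage from the primes up to `w = y^(1/(3 log log y))` to the primes up to `y` and to the normalisation
with `log log y` (Markov's inequality with FM; continuity of `Phi`) -/
def T_SAND : Prop := T_HEAD → T_MU → T_FM → ∀ (b H : ℕ → ℤ) (X : ℕ → ℕ) (y : ℕ → ℝ), Tendsto y atTop atTop →
  (∀ n, y n ^ 2 ≤ X n) → ∀ (N : ℕ → ℕ → ℕ), (∀ n, ∀ a ∈ Icc 1 (X n), nev (PW 2 (y n)) (WH (b n) (H n)) a ≤ N n a ∧
    N n a ≤ nev (PW 2 (y n)) (WH (b n) (H n)) a + 1) → ∀ z : ℝ,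
  Tendsto (fun n => (((Icc 1 (X n)).filter fun a => (N n a : ℝ) ≤
    Real.log (Real.log (y n)) + z * Real.sqrt (Real.log (Real.log (y n)))).card : ℝ) / X n) atTop (𝓝 (Phi z))

end Pool.Agent.U6.EK
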