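import Pool.Agent.U6.EK.Stm

/-!
# Project EK (helper6): assembly, first part: the characteristic functions
-/

set_option autoImplicit false

namespace Pool.Agent.U6.EK

open Finset Filter Topology
open Pool.Agent.U923.PP (es cnt nev WH PW JM moment_bound WH_cnt mem_PW)
open Pool.Agent.Helper92K9.WI (gg)

theorem cf (hEXP : T_EXP) (hES : T_ES) (hGEN : T_GEN) {Ω : Finset ℕ} (hΩ : 0 < Ω.card) (N : ℕ → ℕ) (P : Finset ℕ)
    (q : ℕ → ℝ) (hq : ∀ p ∈ P, 0 ≤ q p) {Z : ℝ} (hZ : 1 ≤ Z)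
    (hM : ∀ r : ℕ, |(∑ a ∈ Ω, ((N a).choose r : ℝ)) / Ω.card - es P q r| ≤ Z ^ (2 * r) / Ω.card) (K : ℕ) (t : ℂ)
    (ht1 : ‖1 + t‖ ≤ 1) (ht : ‖t‖ ≤ 1) :
    ‖(∑ a ∈ Ω, (1 + t) ^ (N a)) / (Ω.card : ℂ) - ∏ p ∈ P, (1 + t * (q p : ℂ))‖ ≤
      (K + 1) * Z ^ (2 * K) / Ω.card + 2 * ((1 / 2) ^ K * Real.exp (2 * ‖t‖ * ∑ p ∈ P, q p)) := by
  have hc : (0 : ℝ) < Ω.card := by exact_mod_cast hΩ
  have hcC : (Ω.card : ℂ) ≠ 0 := by exact_mod_cast hc.ne'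
  set M : ℕ → ℝ := fun r => (∑ a ∈ Ω, ((N a).choose r : ℝ)) / Ω.card with hMdef
  set B : ℂ := ∑ k ∈ range K, t ^ k * ((M k : ℝ) : ℂ) with hB
  set C : ℂ := ∑ k ∈ range K, t ^ k * ((es P q k : ℝ) : ℂ) with hC
  have e1 : (∑ a ∈ Ω, (1 + t) ^ (N a)) / (Ω.card : ℂ) - B =
      (∑ a ∈ Ω, ((1 + t) ^ (N a) - ∑ k ∈ range K, ((N a).choose k : ℂ) * t ^ k)) / (Ω.card : ℂ) := by
    rw [sum_sub_distrib, sub_div, hB]
    congr 1
    rw [sum_comm, sum_div]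
    apply sum_congr rfl
    intro k _
    rw [← sum_mul, hMdef]
    push_cast
    field_simp
  have b1 : ‖(∑ a ∈ Ω, (1 + t) ^ (N a)) / (Ω.card : ℂ) - B‖ ≤ M K * ‖t‖ ^ K := by
    rw [e1, norm_div, Complex.norm_natCast]
    have h1 : ‖∑ a ∈ Ω, ((1 + t) ^ (N a) - ∑ k ∈ range K, ((N a).choose k : ℂ) * t ^ k)‖ ≤
        ∑ a ∈ Ω, ((N a).choose K : ℝ) * ‖t‖ ^ K :=
      (norm_sum_le _ _).trans (sum_le_sum fun a _ => hEXP (N a) K t ht1)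
    rw [← sum_mul] at h1
    calc _ ≤ ((∑ a ∈ Ω, ((N a).choose K : ℝ)) * ‖t‖ ^ K) / Ω.card := div_le_div_of_nonneg_right h1 hc.le
      _ = M K * ‖t‖ ^ K := by rw [hMdef]; ring
  have hMK : M K * ‖t‖ ^ K ≤ (1 / 2) ^ K * Real.exp (2 * ‖t‖ * ∑ p ∈ P, q p) + Z ^ (2 * K) / Ω.card := by
    have h1 : M K ≤ es P q K + Z ^ (2 * K) / Ω.card := by
      have := (abs_le.1 (hM K)).2
      rw [hMdef]
      linarith
    have h2 : ‖t‖ ^ K ≤ 1 := pow_le_one₀ (norm_nonneg _) ht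
    have h3 : 0 ≤ ‖t‖ ^ K := by positivity
    have h4 : (0 : ℝ) ≤ Z ^ (2 * K) / Ω.card := by positivity
    have h5 := hES P q K ‖t‖ hq (norm_nonneg _)
    calc M K * ‖t‖ ^ K ≤ (es P q K + Z ^ (2 * K) / Ω.card) * ‖t‖ ^ K := mul_le_mul_of_nonneg_right h1 h3
      _ = es P q K * ‖t‖ ^ K + Z ^ (2 * K) / Ω.card * ‖t‖ ^ K := by ring
      _ ≤ (1 / 2) ^ K * Real.exp (2 * ‖t‖ * ∑ p ∈ P, q p) + Z ^ (2 * K) / Ω.card * 1 :=
        add_le_add h5 (mul_le_mul_of_nonneg_left h2 h4)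
      _ = _ := by ring
  have b2 : ‖B - C‖ ≤ K * Z ^ (2 * K) / Ω.card := by
    have h1 : B - C = ∑ k ∈ range K, t ^ k * (((M k - es P q k : ℝ)) : ℂ) := by
      rw [hB, hC, ← sum_sub_distrib]
      apply sum_congr rfl
      intro k _
      push_cast
      ring
    rw [h1]
    refine (norm_sum_le _ _).trans ?_
    have h2 : ∀ k ∈ range K, ‖t ^ k * (((M k - es P q k : ℝ)) : ℂ)‖ ≤ Z ^ (2 * K) / Ω.card := by
      intro k hk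
      rw [norm_mul, norm_pow, Complex.norm_real, Real.norm_eq_abs]
      have h3 : ‖t‖ ^ k ≤ 1 := pow_le_one₀ (norm_nonneg _) ht
      have h4 : Z ^ (2 * k) ≤ Z ^ (2 * K) := pow_le_pow_right₀ hZ (by have := mem_range.1 hk; omega)
      calc ‖t‖ ^ k * |M k - es P q k| ≤ 1 * (Z ^ (2 * k) / Ω.card) :=
            mul_le_mul h3 (hM k) (abs_nonneg _) zero_le_one
        _ ≤ Z ^ (2 * K) / Ω.card := by rw [one_mul]; exact div_le_div_of_nonneg_right h4 hc.le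
    refine (sum_le_sum h2).trans ?_
    rw [sum_const, card_range, nsmul_eq_mul]
    exact le_of_eq (by ring)
  have b3 := hGEN P q t K hq
  rw [← hC, norm_sub_rev] at b3
  have e4 : (∑ a ∈ Ω, (1 + t) ^ (N a)) / (Ω.card : ℂ) - ∏ p ∈ P, (1 + t * (q p : ℂ)) =
      ((∑ a ∈ Ω, (1 + t) ^ (N a)) / (Ω.card : ℂ) - B) + (B - C) + (C - ∏ p ∈ P, (1 + t * (q p : ℂ))) := by ring
  rw [e4]
  refine (norm_add₃_le).trans ?_
  have e5 : (K + 1) * Z ^ (2 * K) / (Ω.card : ℝ) = K * Z ^ (2 * K) / Ω.card + Z ^ (2 * K) / Ω.card := by ring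
  rw [e5]
  linarith

end Pool.Agent.U6.EK
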