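import Pool.Agent.U6.EK.Asm

/-!
# Project EK (helper6): assembly, second part: the primes up to `w`
-/

set_option autoImplicit false

namespace Pool.Agent.U6.EK

open Finset Filter Topology
open Pool.Agent.U923.PP (es cnt nev WH PW JM moment_bound WH_cnt mem_PW gg_nonneg)
open Pool.Agent.Helper92K9.WI (gg)

theorem card_PW (w : ℝ) (hw : 3 ≤ w) : ((PW 2 w).card : ℝ) ≤ w := by
  have h1 : (PW 2 w).card ≤ ⌊w⌋₊ := by
    unfold PW
    refine (card_filter_le _ _).trans ?_
    rw [Nat.card_Ioc]
    omega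
  calc ((PW 2 w).card : ℝ) ≤ (⌊w⌋₊ : ℝ) := by exact_mod_cast h1
    _ ≤ w := Nat.floor_le (by linarith)

theorem mom (b H : ℤ) (X : ℕ) (hX : 1 ≤ X) (w : ℝ) (hw : 3 ≤ w) (r : ℕ) :
    |(∑ a ∈ Icc 1 X, ((nev (PW 2 w) (WH b H) a).choose r : ℝ)) / (Icc 1 X).card - es (PW 2 w) gg r| ≤
      w ^ (2 * r) / (Icc 1 X).card := by
  classical
  have hm := moment_bound (ι := Unit) (Ω := Icc 1 X) (P := fun _ => PW 2 w) (fun i j hij => absurd (Subsingleton.elim i j) hij)
    (W := WH b H) (q := gg) (Z := w) (by linarith) (fun _ => card_PW w hw) (fun T hT => by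
      refine WH_cnt b H X T (fun p hp => ?_) (fun p hp => ?_)
      · obtain ⟨_, h⟩ := hT p hp
        have h2 := (mem_PW (by norm_num) (by linarith)).1 h
        refine ⟨h2.1, ?_⟩
        rintro rfl
        have := h2.2.1
        norm_num at this
      · obtain ⟨_, h⟩ := hT p hp
        exact ((mem_PW (by norm_num) (by linarith)).1 h).2.2) (fun _ => r) (by rw [Nat.card_Icc]; omega)
  unfold JM at hm
  simpa using hm

theorem gg_le_one {p : ℕ} (hp : p.Prime) : gg p ≤ 1 := by
  unfold gg
  have : (2 : ℝ) ≤ p := by exact_mod_cast hp.two_le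
  rw [div_le_one (by positivity)]
  nlinarith

/-- the errors in the theorem on the primes up to `w` -/
theorem err1 {L : ℕ → ℝ} (hL : Tendsto L atTop atTop) : Tendsto (fun n => (L n + 1) * Real.exp (-L n)) atTop (𝓝 0) := by
  have h1 : Tendsto (fun x : ℝ => x * Real.exp (-x)) atTop (𝓝 0) := by
    have := Real.tendsto_pow_mul_exp_neg_atTop_nhds_zero 1
    simpa using this
  have h2 : Tendsto (fun x : ℝ => Real.exp (-x)) atTop (𝓝 0) := Real.tendsto_exp_neg_atTop_nhds_zero
  have h3 := (h1.add h2).comp hL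
  rw [add_zero] at h3
  exact h3.congr fun n => by simp only [Function.comp_apply]; ring

theorem err2 {m : ℕ → ℝ} (hm : Tendsto m atTop atTop) (u C : ℝ) :
    Tendsto (fun n => Real.exp (-(Real.log 2 * (m n - C))) * Real.exp (2 * |u| * Real.sqrt (m n))) atTop (𝓝 0) := by
  have h1 : Tendsto (fun n => Real.log 2 * (m n - C) - 2 * |u| * Real.sqrt (m n)) atTop atTop := by
    have h2 : Tendsto (fun x : ℝ => x * (Real.log 2 * x - 2 * |u|) - Real.log 2 * C) atTop atTop := by
      apply Tendsto.atTop_add _ tendsto_const_nhds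
      apply Tendsto.atTop_mul_atTop₀ tendsto_id
      apply Tendsto.atTop_add _ tendsto_const_nhds
      exact Tendsto.const_mul_atTop (Real.log_pos one_lt_two) tendsto_id
    have h3 := h2.comp (Real.tendsto_sqrt_atTop.comp hm)
    refine h3.congr' ?_
    filter_upwards [hm.eventually_ge_atTop 0] with n hn
    simp only [Function.comp_apply]
    have := Real.mul_self_sqrt hn
    linear_combination Real.log 2 * this
  have h4 := Real.tendsto_exp_neg_atTop_nhds_zero.comp h1
  refine h4.congr fun n => ?_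
  simp only [Function.comp_apply]
  rw [← Real.exp_add]
  congr 1
  ring

end Pool.Agent.U6.EK
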