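import Pool.Agent.U6.EK.Asm2

/-!
# Project EK (helper6): assembly, third part: T_HEAD
-/

set_option autoImplicit false

namespace Pool.Agent.U6.EK

open Finset Filter Topology
open Pool.Agent.U923.PP (es cnt nev WH PW JM moment_bound WH_cnt mem_PW gg_nonneg)
open Pool.Agent.Helper92K9.WI (gg)

theorem bound1 {X : ℕ} {w L : ℝ} (hL : L = Real.log (Real.log w)) (hw : 3 ≤ w) (hL0 : 0 ≤ L) (hX : w ^ (3 * L) ≤ X) :
    ((⌊L⌋₊ : ℝ) + 1) * w ^ (2 * ⌊L⌋₊) / X ≤ (L + 1) * Real.exp (-L) := by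
  have hw0 : 0 < w := by linarith
  have hX0 : (0 : ℝ) < X := lt_of_lt_of_le (Real.rpow_pos_of_pos hw0 _) hX
  have hK : (⌊L⌋₊ : ℝ) ≤ L := Nat.floor_le hL0
  have hlw : 1 ≤ Real.log w := by
    rw [Real.le_log_iff_exp_le hw0]
    have := Real.exp_one_lt_d9
    linarith
  have h1 : w ^ (2 * ⌊L⌋₊) ≤ w ^ (2 * L) := by
    rw [← Real.rpow_natCast]
    apply Real.rpow_le_rpow_of_exponent_le (by linarith)
    push_cast
    linarith
  rw [div_le_iff₀ hX0]
  have h2 : w ^ (2 * L) ≤ Real.exp (-L) * w ^ (3 * L) := by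
    have e : w ^ (3 * L) = w ^ (2 * L) * w ^ L := by rw [← Real.rpow_add hw0]; congr 1; ring
    rw [e]
    have h3 : 1 ≤ Real.exp (-L) * w ^ L := by
      rw [Real.rpow_def_of_pos hw0, ← Real.exp_add, Real.one_le_exp_iff]
      nlinarith
    have h4 : 0 < w ^ (2 * L) := Real.rpow_pos_of_pos hw0 _
    nlinarith
  calc ((⌊L⌋₊ : ℝ) + 1) * w ^ (2 * ⌊L⌋₊) ≤ (L + 1) * (Real.exp (-L) * w ^ (3 * L)) :=
        mul_le_mul (by linarith) (h1.trans h2) (by positivity) (by linarith)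
    _ ≤ (L + 1) * (Real.exp (-L) * X) := by
        apply mul_le_mul_of_nonneg_left _ (by linarith)
        exact mul_le_mul_of_nonneg_left hX (Real.exp_pos _).le
    _ = _ := by ring

theorem head (hEXP : T_EXP) (hES : T_ES) (hGEN : T_GEN) (hPROD : T_PROD) (hLIM : T_LIM) (hLEVY : T_LEVY)
    (hMU : T_MU) : T_HEAD := by
  classical
  obtain ⟨C, hC, hmu, -, hsq⟩ := hMU
  intro b H X w hw hw3 hX z
  set μ : ℕ → ℝ := fun n => ∑ p ∈ PW 2 (w n), gg p with hμdef
  set L : ℕ → ℝ := fun n => Real.log (Real.log (w n)) with hLdef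
  have hL : Tendsto L atTop atTop := Real.tendsto_log_atTop.comp (Real.tendsto_log_atTop.comp hw)
  have hμL : ∀ n, L n - C ≤ μ n ∧ μ n ≤ L n + C := fun n => by
    have := abs_le.1 (hmu (w n) (hw3 n))
    simp only [hμdef, hLdef]
    constructor <;> linarith
  have hμ : Tendsto μ atTop atTop := by
    refine tendsto_atTop_mono (fun n => (hμL n).1) ?_
    exact Tendsto.atTop_add hL tendsto_const_nhds
  have hX1 : ∀ n, 1 ≤ X n := fun n => by
    have h1 : (0 : ℝ) < X n := lt_of_lt_of_le (Real.rpow_pos_of_pos (by have := hw3 n; linarith) _) (hX n)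
    exact_mod_cast h1
  have hcard : ∀ n, ((Icc 1 (X n)).card : ℝ) = X n := fun n => by rw [Nat.card_Icc]; simp
  have hne : ∀ n, (Icc 1 (X n)).Nonempty := fun n => ⟨1, mem_Icc.2 ⟨le_rfl, hX1 n⟩⟩
  have hpr : ∀ n, ∀ p ∈ PW 2 (w n), p.Prime := fun n p hp =>
    ((mem_PW (by norm_num) (by have := hw3 n; linarith)).1 hp).1
  have key : ∀ u : ℝ, Tendsto (fun n => (∑ a ∈ Icc 1 (X n), Complex.exp (Complex.I *
      ((u * (((nev (PW 2 (w n)) (WH (b n) (H n)) a : ℝ) - μ n) / Real.sqrt (μ n)) : ℝ) : ℂ))) /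
      ((Icc 1 (X n)).card : ℂ)) atTop (𝓝 (Complex.exp (((-(u ^ 2) / 2 : ℝ) : ℂ)))) := by
    intro u
    set t : ℕ → ℂ := fun n => Complex.exp (Complex.I * ((u / Real.sqrt (μ n) : ℝ) : ℂ)) - 1 with htdef
    have h1t : ∀ n, 1 + t n = Complex.exp (Complex.I * ((u / Real.sqrt (μ n) : ℝ) : ℂ)) := fun n => by
      simp only [htdef]; ring
    have hn1 : ∀ n, ‖1 + t n‖ ≤ 1 := fun n => by
      rw [h1t, mul_comm, Complex.norm_exp_ofReal_mul_I]
    have hnt : ∀ n, ‖t n‖ ≤ |u| / Real.sqrt (μ n) := fun n => by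
      have h1 := Real.norm_exp_I_mul_ofReal_sub_one_le (x := u / Real.sqrt (μ n))
      refine h1.trans ?_
      rw [Real.norm_eq_abs, abs_div, abs_of_nonneg (Real.sqrt_nonneg _)]
    have hsqrt : Tendsto (fun n => Real.sqrt (μ n)) atTop atTop := Real.tendsto_sqrt_atTop.comp hμ
    have hsmall : ∀ᶠ n in atTop, |u| / Real.sqrt (μ n) ≤ 1 := by
      filter_upwards [hsqrt.eventually_ge_atTop (|u| + 1)] with n hn
      rw [div_le_one (by have := abs_nonneg u; linarith)]
      linarith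
    set A : ℕ → ℂ := fun n => (∑ a ∈ Icc 1 (X n), (1 + t n) ^ (nev (PW 2 (w n)) (WH (b n) (H n)) a)) /
      ((Icc 1 (X n)).card : ℂ) with hA
    set D : ℕ → ℂ := fun n => ∏ p ∈ PW 2 (w n), (1 + t n * (gg p : ℂ)) with hD
    set E : ℕ → ℂ := fun n => Complex.exp (t n * ((μ n : ℝ) : ℂ)) with hE
    set c : ℕ → ℂ := fun n => Complex.exp (-(Complex.I * ((u * Real.sqrt (μ n) : ℝ) : ℂ))) with hc
    have hcn : ∀ n, ‖c n‖ = 1 := fun n => by
      simp only [hc]
      have e : -(Complex.I * ((u * Real.sqrt (μ n) : ℝ) : ℂ)) = ((-(u * Real.sqrt (μ n)) : ℝ) : ℂ) * Complex.I := by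
        push_cast; ring
      rw [e, Complex.norm_exp_ofReal_mul_I]
    have hAD : Tendsto (fun n => (A n - D n) * c n) atTop (𝓝 0) := by
      have hb : Tendsto (fun n => (L n + 1) * Real.exp (-L n) +
          2 * (Real.exp (-(Real.log 2 * (μ n - (C + 1)))) * Real.exp (2 * |u| * Real.sqrt (μ n)))) atTop (𝓝 0) := by
        have := (err1 hL).add ((err2 hμ u (C + 1)).const_mul 2)
        simpa using this
      refine squeeze_zero_norm' ?_ hb
      filter_upwards [hsmall, hL.eventually_ge_atTop 0, hμ.eventually_gt_atTop 0] with n hs hL0 hm0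
      rw [norm_mul, hcn, mul_one]
      have h1 := cf hEXP hES hGEN (Ω := Icc 1 (X n)) (card_pos.2 (hne n)) (nev (PW 2 (w n)) (WH (b n) (H n)))
        (PW 2 (w n)) gg (fun p hp => gg_nonneg (hpr n p hp)) (Z := w n) (by have := hw3 n; linarith)
        (fun r => mom (b n) (H n) (X n) (hX1 n) (w n) (hw3 n) r) ⌊L n⌋₊ (t n) (hn1 n) ((hnt n).trans hs)
      refine h1.trans ?_
      rw [hcard]
      refine add_le_add (bound1 rfl (hw3 n) hL0 (hX n)) ?_
      apply mul_le_mul_of_nonneg_left _ (by norm_num)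
      apply mul_le_mul _ _ (Real.exp_pos _).le (Real.exp_pos _).le
      · have e : ((1 : ℝ) / 2) ^ ⌊L n⌋₊ = Real.exp (-(Real.log 2 * (⌊L n⌋₊ : ℝ))) := by
          rw [Real.exp_neg, mul_comm, Real.exp_nat_mul, Real.exp_log (by norm_num)]
          rw [one_div, inv_pow]
        rw [e, Real.exp_le_exp, neg_le_neg_iff]
        apply mul_le_mul_of_nonneg_left _ (Real.log_pos one_lt_two).le
        have h2 := Nat.lt_floor_add_one (L n)
        have h3 := (hμL n).2
        linarith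
      · rw [Real.exp_le_exp]
        have h2 : ‖t n‖ * μ n ≤ |u| * Real.sqrt (μ n) := by
          calc ‖t n‖ * μ n ≤ |u| / Real.sqrt (μ n) * μ n := mul_le_mul_of_nonneg_right (hnt n) hm0.le
            _ = |u| * Real.sqrt (μ n) := by
              rw [div_mul_eq_mul_div, mul_div_assoc, Real.div_sqrt]
        have : 2 * ‖t n‖ * ∑ p ∈ PW 2 (w n), gg p = 2 * (‖t n‖ * μ n) := by simp only [hμdef]; ring
        rw [this]
        linarith
    have hDE : Tendsto (fun n => (D n - E n) * c n) atTop (𝓝 0) := by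
      have hb : Tendsto (fun n => u ^ 2 * C / μ n) atTop (𝓝 0) := tendsto_const_nhds.div_atTop hμ
      refine squeeze_zero_norm' ?_ hb
      filter_upwards [hsmall, hμ.eventually_gt_atTop 0] with n hs hm0
      rw [norm_mul, hcn, mul_one]
      have h1 := hPROD (PW 2 (w n)) gg (t n) (fun p hp => ⟨gg_nonneg (hpr n p hp), gg_le_one (hpr n p hp)⟩) (hn1 n)
        ((hnt n).trans hs)
      refine h1.trans ?_
      have h2 : ‖t n‖ ^ 2 ≤ u ^ 2 / μ n := by
        calc ‖t n‖ ^ 2 ≤ (|u| / Real.sqrt (μ n)) ^ 2 := pow_le_pow_left₀ (norm_nonneg _) (hnt n) 2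
          _ = u ^ 2 / μ n := by rw [div_pow, sq_abs, Real.sq_sqrt hm0.le]
      calc ‖t n‖ ^ 2 * ∑ p ∈ PW 2 (w n), gg p ^ 2 ≤ u ^ 2 / μ n * C :=
            mul_le_mul h2 (hsq (w n)) (sum_nonneg fun p _ => sq_nonneg _) (by positivity)
        _ = _ := by ring
    have hEc : Tendsto (fun n => E n * c n) atTop (𝓝 (Complex.exp (((-(u ^ 2) / 2 : ℝ) : ℂ)))) := hLIM μ hμ u
    have hsum := (hAD.add hDE).add hEc
    rw [zero_add, zero_add] at hsum
    refine hsum.congr' ?_
    filter_upwards [hμ.eventually_gt_atTop 0] with n hm0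
    have e1 : (A n - D n) * c n + (D n - E n) * c n + E n * c n = A n * c n := by ring
    rw [e1]
    simp only [hA]
    rw [div_mul_eq_mul_div, sum_mul]
    congr 1
    apply sum_congr rfl
    intro a _
    rw [h1t, ← Complex.exp_nat_mul]
    simp only [hc]
    rw [← Complex.exp_add]
    congr 1
    have hs0 : Real.sqrt (μ n) ≠ 0 := (Real.sqrt_pos.2 hm0).ne'
    have e2 : u * (((nev (PW 2 (w n)) (WH (b n) (H n)) a : ℝ) - μ n) / Real.sqrt (μ n)) =
        (nev (PW 2 (w n)) (WH (b n) (H n)) a : ℝ) * (u / Real.sqrt (μ n)) - u * Real.sqrt (μ n) := by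
      have h3 : u * Real.sqrt (μ n) = u * (μ n / Real.sqrt (μ n)) := by rw [Real.div_sqrt]
      rw [h3]
      field_simp
    rw [e2]
    push_cast
    ring
  have hfin := hLEVY (fun n => Icc 1 (X n)) (fun n a => ((nev (PW 2 (w n)) (WH (b n) (H n)) a : ℝ) - μ n) /
    Real.sqrt (μ n)) hne key z
  refine hfin.congr' ?_
  filter_upwards [hμ.eventually_gt_atTop 0] with n hm0
  have hs0 : 0 < Real.sqrt (μ n) := Real.sqrt_pos.2 hm0
  rw [hcard]
  congr 2
  congr 1
  apply filter_congr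
  intro a _
  rw [div_le_iff₀ hs0, sub_le_iff_le_add']

end Pool.Agent.U6.EK
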