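import Pool.Agent.U6.EK.Asm3

/-!
# Project EK (helper6): the sandwich
-/

set_option autoImplicit false

namespace Pool.Agent.U6.EK

open Finset Filter Topology
open Pool.Agent.U923.PP (es cnt nev WH PW JM moment_bound WH_cnt mem_PW gg_nonneg)
open Pool.Agent.Helper92K9.WI (gg)

theorem nev_mono {w y : ℝ} (hwy : w ≤ y) (W : ℕ → ℕ → Prop) (a : ℕ) : nev (PW 2 w) W a ≤ nev (PW 2 y) W a := by
  classical
  unfold nev
  apply card_le_card
  apply filter_subset_filter
  unfold PW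
  apply filter_subset_filter
  apply Ioc_subset_Ioc_right
  exact Nat.floor_mono hwy

theorem nev_add {w y : ℝ} (W : ℕ → ℕ → Prop) (a : ℕ) :
    nev (PW 2 y) W a ≤ nev (PW 2 w) W a + nev (PW w y) W a := by
  classical
  unfold nev
  refine le_trans (card_le_card ?_) (card_union_le _ _)
  intro p hp
  rw [mem_filter] at hp
  unfold PW at hp ⊢
  rw [mem_filter, mem_Ioc] at hp
  rw [mem_union, mem_filter, mem_filter, mem_filter, mem_filter, mem_Ioc, mem_Ioc]
  rcases le_or_gt p ⌊w⌋₊ with h | h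
  · exact Or.inl ⟨⟨⟨hp.1.1.1, h⟩, hp.1.2⟩, hp.2⟩
  · exact Or.inr ⟨⟨⟨h, hp.1.1.2⟩, hp.1.2⟩, hp.2⟩

/-- the function `Phi` is continuous -/
theorem phi_cont : Continuous Phi := by
  have h1 : ∀ x y : ℝ, x ≤ y → |Phi y - Phi x| ≤ y - x := by
    intro x y hxy
    have hpdf : ∀ t : ℝ, ProbabilityTheory.gaussianPDF 0 1 t ≤ 1 := by
      intro t
      unfold ProbabilityTheory.gaussianPDF
      rw [ENNReal.ofReal_le_one]
      unfold ProbabilityTheory.gaussianPDFReal
      have h2 : (Real.sqrt (2 * Real.pi * (1 : NNReal)))⁻¹ ≤ 1 := by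
        apply inv_le_one_of_one_le₀
        rw [Real.one_le_sqrt]
        push_cast
        have := Real.pi_gt_three
        linarith
      have h3 : Real.exp (-(t - 0) ^ 2 / (2 * (1 : NNReal))) ≤ 1 := by
        rw [Real.exp_le_one_iff]
        push_cast
        have := sq_nonneg (t - 0)
        linarith
      calc _ ≤ (1 : ℝ) * 1 := mul_le_mul h2 h3 (Real.exp_pos _).le zero_le_one
        _ = 1 := one_mul 1
    have h4 : Set.Iic y = Set.Iic x ∪ Set.Ioc x y := (Set.Iic_union_Ioc_eq_Iic hxy).symm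
    have h5 : ProbabilityTheory.gaussianReal 0 1 (Set.Iic y) = ProbabilityTheory.gaussianReal 0 1 (Set.Iic x) +
        ProbabilityTheory.gaussianReal 0 1 (Set.Ioc x y) := by
      rw [h4, MeasureTheory.measure_union _ measurableSet_Ioc]
      rw [Set.disjoint_left]
      intro s hs hs'
      exact absurd hs'.1 (not_lt.2 hs)
    have h6 : ProbabilityTheory.gaussianReal 0 1 (Set.Ioc x y) ≤ ENNReal.ofReal (y - x) := by
      rw [ProbabilityTheory.gaussianReal_apply _ (by norm_num)]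
      calc ∫⁻ s in Set.Ioc x y, ProbabilityTheory.gaussianPDF 0 1 s ≤ ∫⁻ _s in Set.Ioc x y, 1 :=
            MeasureTheory.lintegral_mono fun s => hpdf s
        _ = ENNReal.ofReal (y - x) := by simp
    have h7 : Phi y = Phi x + (ProbabilityTheory.gaussianReal 0 1 (Set.Ioc x y)).toReal := by
      unfold Phi
      rw [h5, ENNReal.toReal_add (MeasureTheory.measure_ne_top _ _) (MeasureTheory.measure_ne_top _ _)]
    rw [h7, add_sub_cancel_left, abs_of_nonneg ENNReal.toReal_nonneg]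
    exact ENNReal.toReal_le_of_le_ofReal (by linarith) h6
  have h2 : ∀ x y : ℝ, |Phi y - Phi x| ≤ |y - x| := by
    intro x y
    rcases le_total x y with h | h
    · rw [abs_of_nonneg (by linarith : 0 ≤ y - x)]
      exact h1 x y h
    · rw [abs_sub_comm, abs_sub_comm y x, abs_of_nonneg (by linarith : 0 ≤ x - y)]
      exact h1 y x h
  rw [Metric.continuous_iff]
  intro x ε hε
  refine ⟨ε, hε, fun y hy => ?_⟩
  rw [Real.dist_eq] at *
  exact lt_of_le_of_lt (h2 x y) hy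

/-- the final limit argument -/
theorem squeeze_phi {G : ℕ → ℝ} {F : ℕ → ℝ → ℝ} {z : ℝ} (hF : ∀ x, Tendsto (fun n => F n x) atTop (𝓝 (Phi x)))
    (hup : ∀ δ : ℝ, 0 < δ → ∀ᶠ n in atTop, G n ≤ F n (z + δ))
    (hlo : ∀ δ : ℝ, 0 < δ → ∃ e : ℕ → ℝ, Tendsto e atTop (𝓝 0) ∧ ∀ᶠ n in atTop, F n (z - δ) - e n ≤ G n) :
    Tendsto G atTop (𝓝 (Phi z)) := by
  rw [Metric.tendsto_atTop']
  intro ε hε
  obtain ⟨δ, hδ, hc⟩ := Metric.continuous_iff.1 phi_cont z (ε / 2) (by linarith)
  have c1 := hc (z + δ / 2) (by rw [Real.dist_eq]; rw [add_sub_cancel_left, abs_of_pos (by linarith)]; linarith)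
  have c2 := hc (z - δ / 2) (by
    rw [Real.dist_eq]
    have : z - δ / 2 - z = -(δ / 2) := by ring
    rw [this, abs_neg, abs_of_pos (by linarith)]; linarith)
  rw [Real.dist_eq] at c1 c2
  have f1 := (hF (z + δ / 2)).eventually (Metric.ball_mem_nhds _ (show (0 : ℝ) < ε / 2 by linarith))
  have f2 := (hF (z - δ / 2)).eventually (Metric.ball_mem_nhds _ (show (0 : ℝ) < ε / 4 by linarith))
  obtain ⟨e, he, hlo'⟩ := hlo (δ / 2) (by linarith)
  have f3 := he.eventually (Metric.ball_mem_nhds _ (show (0 : ℝ) < ε / 4 by linarith))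
  have hall := (((f1.and f2).and f3).and (hup (δ / 2) (by linarith))).and hlo'
  obtain ⟨n₀, hn₀⟩ := eventually_atTop.1 hall
  refine ⟨n₀, fun n hn => ?_⟩
  obtain ⟨⟨⟨⟨g1, g2⟩, g3⟩, g4⟩, g5⟩ := hn₀ n hn.le
  rw [Real.dist_eq] at g1 g2 g3
  rw [Real.dist_eq]
  rw [abs_lt] at *
  constructor <;> linarith [c1.1, c1.2, c2.1, c2.2, g1.1, g1.2, g2.1, g2.2, g3.1, g3.2]

end Pool.Agent.U6.EK
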