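import Pool.Agent.U6.EK.Sand

/-!
# Project EK (helper6): the sandwich, second part
-/

set_option autoImplicit false

namespace Pool.Agent.U6.EK

open Finset Filter Topology
open Pool.Agent.U923.PP (es cnt nev WH PW JM moment_bound WH_cnt mem_PW gg_nonneg)
open Pool.Agent.Helper92K9.WI (gg)

theorem markov {X : ℕ} (hX : 0 < X) (f : ℕ → ℕ) {A c : ℝ} (hc : 0 < c)
    (hA : (∑ a ∈ Icc 1 X, (f a : ℝ)) / X ≤ A) : (((Icc 1 X).filter fun a => c < (f a : ℝ)).card : ℝ) / X ≤ A / c := by
  have hX' : (0 : ℝ) < X := by exact_mod_cast hX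
  rw [div_le_iff₀ hX'] at hA
  rw [div_le_div_iff₀ hX' hc]
  have h1 : (((Icc 1 X).filter fun a => c < (f a : ℝ)).card : ℝ) * c ≤ ∑ a ∈ (Icc 1 X).filter (fun a => c < (f a : ℝ)), (f a : ℝ) := by
    rw [← nsmul_eq_mul, ← sum_const]
    exact sum_le_sum fun a ha => (mem_filter.1 ha).2.le
  have h2 : ∑ a ∈ (Icc 1 X).filter (fun a => c < (f a : ℝ)), (f a : ℝ) ≤ ∑ a ∈ Icc 1 X, (f a : ℝ) :=
    sum_le_sum_of_subset_of_nonneg (filter_subset _ _) fun a _ _ => Nat.cast_nonneg _
  linarith

/-- `sqrt (μ)` and the normalisations -/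
theorem norm_lim {L μ e : ℕ → ℝ} (hL : Tendsto L atTop atTop) (he : ∀ n, |L n - μ n| ≤ e n)
    (he0 : Tendsto (fun n => e n / Real.sqrt (L n)) atTop (𝓝 0)) (hμ : Tendsto μ atTop atTop) (z : ℝ) :
    Tendsto (fun n => (L n + z * Real.sqrt (L n) - μ n) / Real.sqrt (μ n)) atTop (𝓝 z) := by
  have hsL : Tendsto (fun n => Real.sqrt (L n)) atTop atTop := Real.tendsto_sqrt_atTop.comp hL
  -- (L - μ)/√L → 0
  have h1 : Tendsto (fun n => (L n - μ n) / Real.sqrt (L n)) atTop (𝓝 0) := by
    refine squeeze_zero_norm' ?_ he0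
    filter_upwards [hL.eventually_gt_atTop 0] with n hn
    rw [Real.norm_eq_abs, abs_div, abs_of_nonneg (Real.sqrt_nonneg _)]
    exact div_le_div_of_nonneg_right (he n) (Real.sqrt_nonneg _)
  -- μ/L → 1
  have h2 : Tendsto (fun n => μ n / L n) atTop (𝓝 1) := by
    have h3 : Tendsto (fun n => 1 - (L n - μ n) / Real.sqrt (L n) * (Real.sqrt (L n))⁻¹) atTop (𝓝 (1 - 0 * 0)) :=
      tendsto_const_nhds.sub (h1.mul hsL.inv_tendsto_atTop)
    rw [mul_zero, sub_zero] at h3
    refine h3.congr' ?_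
    filter_upwards [hL.eventually_gt_atTop 0] with n hn
    have hs := Real.mul_self_sqrt hn.le
    have hs0 := Real.sqrt_pos.2 hn
    field_simp
    rw [Real.sq_sqrt hn.le]
    ring
  have h4 : Tendsto (fun n => Real.sqrt (μ n / L n)) atTop (𝓝 1) := by
    have := (Real.continuous_sqrt.tendsto 1).comp h2
    rwa [Real.sqrt_one] at this
  have h5 : Tendsto (fun n => ((L n - μ n) / Real.sqrt (L n) + z) / Real.sqrt (μ n / L n)) atTop (𝓝 ((0 + z) / 1)) :=
    (h1.add_const z).div h4 one_ne_zero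
  rw [zero_add, div_one] at h5
  refine h5.congr' ?_
  filter_upwards [hL.eventually_gt_atTop 0, hμ.eventually_gt_atTop 0] with n hn hm
  have hs0 := Real.sqrt_pos.2 hn
  have hm0 := Real.sqrt_pos.2 hm
  rw [Real.sqrt_div hm.le]
  field_simp
  ring

open Classical in
/-- the sandwich when all the data are good -/
theorem core (hHEAD : T_HEAD) (hMU : T_MU) (hFM : T_FM) (b H : ℕ → ℤ) (X : ℕ → ℕ) (y w : ℕ → ℝ)
    (hyt : Tendsto y atTop atTop) (hX : ∀ n, y n ^ 2 ≤ X n) (hw3 : ∀ n, 3 ≤ w n) (hwy : ∀ n, w n ≤ y n)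
    (hwt : Tendsto w atTop atTop) (hwX : ∀ n, w n ^ (3 * Real.log (Real.log (w n))) ≤ X n)
    (hlw : ∀ n, Real.log (Real.log (w n)) = Real.log (Real.log (y n)) - Real.log (3 * Real.log (Real.log (y n))))
    (hq : ∀ n, Real.log (y n) / Real.log (w n) = 3 * Real.log (Real.log (y n)))
    (N : ℕ → ℕ → ℕ) (hN : ∀ n, ∀ a ∈ Icc 1 (X n), nev (PW 2 (y n)) (WH (b n) (H n)) a ≤ N n a ∧
    N n a ≤ nev (PW 2 (y n)) (WH (b n) (H n)) a + 1) (z : ℝ) :
    Tendsto (fun n => (((Icc 1 (X n)).filter fun a => (N n a : ℝ) ≤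
    Real.log (Real.log (y n)) + z * Real.sqrt (Real.log (Real.log (y n)))).card : ℝ) / X n) atTop (𝓝 (Phi z)) := by
  obtain ⟨C, hC, hmu, -, -⟩ := hMU
  obtain ⟨C', hC', hfm⟩ := hFM
  set L : ℕ → ℝ := fun n => Real.log (Real.log (y n)) with hLdef
  set μ : ℕ → ℝ := fun n => ∑ p ∈ PW 2 (w n), gg p with hμdef
  have hL : Tendsto L atTop atTop := Real.tendsto_log_atTop.comp (Real.tendsto_log_atTop.comp hyt)
  have hlL : Tendsto (fun n => Real.log (3 * L n)) atTop atTop :=
    Real.tendsto_log_atTop.comp (hL.const_mul_atTop (by norm_num))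
  have hLw : Tendsto (fun n => Real.log (Real.log (w n))) atTop atTop :=
    Real.tendsto_log_atTop.comp (Real.tendsto_log_atTop.comp hwt)
  have hμ : Tendsto μ atTop atTop := by
    refine tendsto_atTop_mono (f := fun n => Real.log (Real.log (w n)) + -C) (fun n => ?_)
      (Tendsto.atTop_add hLw tendsto_const_nhds)
    have := (abs_le.1 (hmu (w n) (hw3 n))).1
    simp only [hμdef]
    linarith
  have he : ∀ n, |L n - μ n| ≤ |Real.log (3 * L n)| + C := by
    intro n
    have h1 := hmu (w n) (hw3 n)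
    rw [hlw n] at h1
    have h2 : L n - μ n = -(μ n - (L n - Real.log (3 * L n))) + Real.log (3 * L n) := by ring
    rw [h2]
    refine (abs_add_le _ _).trans ?_
    rw [abs_neg]
    have h3 : |μ n - (L n - Real.log (3 * L n))| ≤ C := h1
    linarith
  have hlogs : Tendsto (fun n => Real.log (3 * L n) / Real.sqrt (L n)) atTop (𝓝 0) := by
    have h1 : Tendsto (fun x : ℝ => Real.log x / x ^ (1 / 2 : ℝ)) atTop (𝓝 0) :=
      (isLittleO_log_rpow_atTop (by norm_num : (0 : ℝ) < 1 / 2)).tendsto_div_nhds_zero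
    have h2 := h1.comp (hL.const_mul_atTop (by norm_num : (0 : ℝ) < 3))
    have h3 := h2.mul_const (Real.sqrt 3)
    rw [zero_mul] at h3
    refine h3.congr' ?_
    filter_upwards [hL.eventually_gt_atTop 0] with n hn
    simp only [Function.comp_apply]
    rw [← Real.sqrt_eq_rpow, Real.sqrt_mul (by norm_num)]
    have h4 : Real.sqrt 3 ≠ 0 := by positivity
    have h5 : Real.sqrt (L n) ≠ 0 := (Real.sqrt_pos.2 hn).ne'
    field_simp
  have hsL : Tendsto (fun n => Real.sqrt (L n)) atTop atTop := Real.tendsto_sqrt_atTop.comp hL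
  have he0 : Tendsto (fun n => (|Real.log (3 * L n)| + C) / Real.sqrt (L n)) atTop (𝓝 0) := by
    have h1 := hlogs.abs
    rw [abs_zero] at h1
    have h2 : Tendsto (fun n => C / Real.sqrt (L n)) atTop (𝓝 0) := tendsto_const_nhds.div_atTop hsL
    have h3 := h1.add h2
    rw [add_zero] at h3
    refine h3.congr fun n => ?_
    rw [abs_div, abs_of_nonneg (Real.sqrt_nonneg (L n)), add_div]
  have hr := norm_lim hL he he0 hμ z
  have hsμ : Tendsto (fun n => Real.sqrt (μ n)) atTop atTop := Real.tendsto_sqrt_atTop.comp hμ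
  have hXpos : ∀ n, 0 < X n := fun n => by
    have h1 : (0 : ℝ) < X n := by
      have := hw3 n
      have := hwy n
      have := hX n
      nlinarith
    exact_mod_cast h1
  refine squeeze_phi (F := fun n x => (((Icc 1 (X n)).filter fun a => (nev (PW 2 (w n)) (WH (b n) (H n)) a : ℝ) ≤
    μ n + x * Real.sqrt (μ n)).card : ℝ) / X n) (fun x => hHEAD b H X w hwt hw3 hwX x) ?_ ?_
  · intro δ hδ
    have hev := hr.eventually (gt_mem_nhds (show z < z + δ by linarith))
    filter_upwards [hev, hμ.eventually_gt_atTop 0] with n hn hm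
    apply div_le_div_of_nonneg_right _ (Nat.cast_nonneg _)
    have hs0 := Real.sqrt_pos.2 hm
    rw [div_lt_iff₀ hs0] at hn
    exact_mod_cast card_le_card (fun a ha => by
      rw [mem_filter] at ha ⊢
      refine ⟨ha.1, ?_⟩
      have h1 : (nev (PW 2 (w n)) (WH (b n) (H n)) a : ℝ) ≤ N n a := by
        exact_mod_cast (nev_mono (hwy n) _ a).trans (hN n a ha.1).1
      have h2 := ha.2
      simp only [hLdef] at hn
      linarith)
  · intro δ hδ
    refine ⟨fun n => (Real.log (3 * L n) + C') / (δ / 2 * Real.sqrt (μ n) - 1), ?_, ?_⟩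
    · have h1 : Tendsto (fun n => (Real.log (3 * L n) + C') / Real.sqrt (L n)) atTop (𝓝 0) := by
        have h2 : Tendsto (fun n => C' / Real.sqrt (L n)) atTop (𝓝 0) := tendsto_const_nhds.div_atTop hsL
        have h3 := hlogs.add h2
        rw [add_zero] at h3
        exact h3.congr fun n => by rw [add_div]
      -- √L / (δ/2 √μ - 1) → 2/δ
      have h4 := norm_lim hL he he0 hμ 0
      have h5 := norm_lim hL he he0 hμ 1
      have h6 : Tendsto (fun n => Real.sqrt (L n) / Real.sqrt (μ n)) atTop (𝓝 1) := by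
        have h7 := h5.sub h4
        rw [sub_zero] at h7
        refine h7.congr fun n => ?_
        rw [← sub_div]
        congr 1
        ring
      have h8 : Tendsto (fun n => δ / 2 - (Real.sqrt (μ n))⁻¹) atTop (𝓝 (δ / 2 - 0)) :=
        tendsto_const_nhds.sub hsμ.inv_tendsto_atTop
      rw [sub_zero] at h8
      have h9 := (h1.mul h6).div h8 (by linarith : δ / 2 ≠ 0)
      rw [zero_mul, zero_div] at h9
      refine h9.congr' ?_
      filter_upwards [hL.eventually_gt_atTop 0, hμ.eventually_gt_atTop 0] with n hn hm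
      have hs0 := Real.sqrt_pos.2 hn
      have hm0 := Real.sqrt_pos.2 hm
      have e1 : δ / 2 * Real.sqrt (μ n) - 1 = Real.sqrt (μ n) * (δ / 2 - (Real.sqrt (μ n))⁻¹) := by
        field_simp
      change (Real.log (3 * L n) + C') / Real.sqrt (L n) * (Real.sqrt (L n) / Real.sqrt (μ n)) /
        (δ / 2 - (Real.sqrt (μ n))⁻¹) = (Real.log (3 * L n) + C') / (δ / 2 * Real.sqrt (μ n) - 1)
      have e2 : (Real.log (3 * L n) + C') / Real.sqrt (L n) * (Real.sqrt (L n) / Real.sqrt (μ n)) =
          (Real.log (3 * L n) + C') / Real.sqrt (μ n) := by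
        field_simp
      rw [e1, e2, div_div]
    · have hev := hr.eventually (lt_mem_nhds (show z - δ / 2 < z by linarith))
      filter_upwards [hev, hμ.eventually_gt_atTop 0, hsμ.eventually_gt_atTop (2 / δ)] with n hn hm hbig
      have hs0 := Real.sqrt_pos.2 hm
      rw [lt_div_iff₀ hs0] at hn
      have hc : 0 < δ / 2 * Real.sqrt (μ n) - 1 := by
        rw [div_lt_iff₀ hδ] at hbig
        nlinarith
      have hmk := markov (hXpos n) (fun a => nev (PW (w n) (y n)) (WH (b n) (H n)) a) hc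
        (hfm (b n) (H n) (X n) (w n) (y n) (hw3 n) (hwy n) (hX n))
      rw [hq n] at hmk
      rw [sub_le_iff_le_add]
      refine le_trans ?_ (add_le_add le_rfl hmk)
      rw [← add_div]
      apply div_le_div_of_nonneg_right _ (Nat.cast_nonneg _)
      have hsub : ((Icc 1 (X n)).filter fun a => (nev (PW 2 (w n)) (WH (b n) (H n)) a : ℝ) ≤ μ n + (z - δ) * Real.sqrt (μ n)) ⊆
          ((Icc 1 (X n)).filter fun a => (N n a : ℝ) ≤ L n + z * Real.sqrt (L n)) ∪
          ((Icc 1 (X n)).filter fun a => δ / 2 * Real.sqrt (μ n) - 1 < (nev (PW (w n) (y n)) (WH (b n) (H n)) a : ℝ)) := by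
        intro a ha
        rw [mem_filter] at ha
        rw [mem_union, mem_filter, mem_filter]
        by_cases hcase : δ / 2 * Real.sqrt (μ n) - 1 < (nev (PW (w n) (y n)) (WH (b n) (H n)) a : ℝ)
        · exact Or.inr ⟨ha.1, hcase⟩
        · left
          refine ⟨ha.1, ?_⟩
          have h1 : (N n a : ℝ) ≤ nev (PW 2 (w n)) (WH (b n) (H n)) a + nev (PW (w n) (y n)) (WH (b n) (H n)) a + 1 := by
            exact_mod_cast (hN n a ha.1).2.trans (Nat.add_le_add_right (nev_add _ a) 1)
          have h2 := ha.2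
          push Not at hcase
          linarith
      exact_mod_cast (card_le_card hsub).trans (card_union_le _ _)


/-- the package SAND -/
theorem t_SAND : T_SAND := by
  classical
  intro hHEAD hMU hFM b H X y hyt hX N hN z
  have hlog : Tendsto (fun n => Real.log (y n)) atTop atTop := Real.tendsto_log_atTop.comp hyt
  have hL : Tendsto (fun n => Real.log (Real.log (y n))) atTop atTop := Real.tendsto_log_atTop.comp hlog
  set w : ℕ → ℝ := fun n => Real.exp (Real.log (y n) / (3 * Real.log (Real.log (y n)))) with hw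
  have hlw : Tendsto (fun n => Real.log (y n) / (3 * Real.log (Real.log (y n)))) atTop atTop := by
    have h1 : Tendsto (fun x : ℝ => Real.exp x / x) atTop atTop := by
      simpa using Real.tendsto_exp_div_pow_atTop 1
    have h2 := (h1.comp hL).const_mul_atTop (by norm_num : (0 : ℝ) < 1 / 3)
    refine h2.congr' ?_
    filter_upwards [hlog.eventually_gt_atTop 0] with n hn
    simp only [Function.comp_apply]
    rw [Real.exp_log hn, one_div, ← div_eq_inv_mul, div_div, mul_comm]
  have hwt : Tendsto w atTop atTop := Real.tendsto_exp_atTop.comp hlw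
  have hev : ∀ᶠ n in atTop, 3 ≤ w n ∧ 1 ≤ Real.log (Real.log (y n)) ∧ 1 ≤ Real.log (y n) ∧ 1 ≤ y n :=
    (hwt.eventually_ge_atTop 3).and ((hL.eventually_ge_atTop 1).and ((hlog.eventually_ge_atTop 1).and (hyt.eventually_ge_atTop 1)))
  obtain ⟨n₀, hn₀⟩ := eventually_atTop.1 hev
  rw [← tendsto_add_atTop_iff_nat n₀]
  have hg : ∀ n, 3 ≤ w (n + n₀) ∧ 1 ≤ Real.log (Real.log (y (n + n₀))) ∧ 1 ≤ Real.log (y (n + n₀)) ∧ 1 ≤ y (n + n₀) :=
    fun n => hn₀ _ (Nat.le_add_left _ _)
  have hlogw : ∀ n, Real.log (w n) = Real.log (y n) / (3 * Real.log (Real.log (y n))) := fun n => by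
    simp only [hw, Real.log_exp]
  refine core hHEAD hMU hFM (fun n => b (n + n₀)) (fun n => H (n + n₀)) (fun n => X (n + n₀)) (fun n => y (n + n₀))
    (fun n => w (n + n₀)) ((tendsto_add_atTop_iff_nat n₀).2 hyt) (fun n => hX _) (fun n => (hg n).1) (fun n => ?_)
    ((tendsto_add_atTop_iff_nat n₀).2 hwt) (fun n => ?_) (fun n => ?_) (fun n => ?_) (fun n => N (n + n₀)) (fun n => hN _) z
  · obtain ⟨h1, h2, h3, h4⟩ := hg n
    simp only [hw]
    rw [← Real.le_log_iff_exp_le (by linarith)]
    apply div_le_self (by linarith)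
    linarith
  · obtain ⟨h1, h2, h3, h4⟩ := hg n
    have hw0 : 0 < w (n + n₀) := by linarith
    have h5 : Real.log (w (n + n₀)) ≤ Real.log (y (n + n₀)) := by
      rw [hlogw]
      exact div_le_self (by linarith) (by linarith)
    have h6 : 0 < Real.log (w (n + n₀)) := Real.log_pos (by linarith)
    have h7 : Real.log (Real.log (w (n + n₀))) ≤ Real.log (Real.log (y (n + n₀))) := Real.log_le_log h6 h5
    have h8 : w (n + n₀) ^ (3 * Real.log (Real.log (w (n + n₀)))) ≤ y (n + n₀) := by
      rw [Real.rpow_def_of_pos hw0, ← Real.le_log_iff_exp_le (by linarith)]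
      calc Real.log (w (n + n₀)) * (3 * Real.log (Real.log (w (n + n₀)))) ≤
            Real.log (w (n + n₀)) * (3 * Real.log (Real.log (y (n + n₀)))) := by
            apply mul_le_mul_of_nonneg_left _ h6.le
            linarith
        _ = Real.log (y (n + n₀)) := by
            rw [hlogw]
            exact div_mul_cancel₀ _ (by linarith)
    have h9 := hX (n + n₀)
    nlinarith
  · obtain ⟨h1, h2, h3, h4⟩ := hg n
    change Real.log (Real.log (w (n + n₀))) = Real.log (Real.log (y (n + n₀))) - Real.log (3 * Real.log (Real.log (y (n + n₀))))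
    rw [hlogw, Real.log_div (by linarith) (by linarith)]
  · obtain ⟨h1, h2, h3, h4⟩ := hg n
    change Real.log (y (n + n₀)) / Real.log (w (n + n₀)) = 3 * Real.log (Real.log (y (n + n₀)))
    rw [hlogw, div_div_eq_mul_div, mul_comm]
    exact mul_div_cancel_right₀ _ (by linarith)

end Pool.Agent.U6.EK
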